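import Mathlib

set_option autoImplicit false

/-!
# An internal-variable-free normal logic program without L-stable models

We disprove: every internal-variable-free normal logic program has an L-stable model.

The counterexample, over one constant `0`, one unary function symbol `s` and the four unary
predicate symbols `go`, `stop`, `w`, `b`, is the program

* `go(0).`
* `go(s(X)) <- go(X), ~stop(X).`
* `stop(X) <- go(X), ~go(s(X)).`
* `w(X) <- stop(X).`
* `w(X) <- w(s(X)).`
* `b(X) <- ~b(X), ~w(s(X)).`
-/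

namespace Pool.Agent.Results.MP_718be6_lc.NoLStableModel



/-! ## Definitions -/

/-- Atoms of the first-order language `L` with variables taken from `α`. -/
structure Atom (L : FirstOrder.Language.{0, 0}) (α : Type) where
  /-- arity of the predicate symbol -/
  arity : ℕ
  /-- the predicate symbol -/
  pred : L.Relations arity
  /-- the arguments -/
  args : Fin arity → L.Term α

/-- The atom obtained from `a` by substituting terms for variables. -/
def Atom.subst {L : FirstOrder.Language.{0, 0}} {α β : Type} (a : Atom L α) (σ : α → L.Term β) :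
    Atom L β where
  arity := a.arity
  pred := a.pred
  args := fun i => (a.args i).subst σ

/-- The set of variables occurring in an atom. -/
def Atom.vars {L : FirstOrder.Language.{0, 0}} {α : Type} [DecidableEq α] (a : Atom L α) : Set α :=
  {x | ∃ i, x ∈ (a.args i).varFinset}

/-- A rule `head <- pos, ~neg` over a set `A` of atoms. -/
structure Rule (A : Type) where
  /-- head of the rule -/
  head : A
  /-- the atoms `p_1, ..., p_m` of the body -/
  pos : List A
  /-- the atoms `p_{m+1}, ..., p_k` which occur under default negation -/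
  neg : List A

/-- Rename all the atoms of a rule. -/
def Rule.map {A B : Type} (f : A → B) (r : Rule A) : Rule B where
  head := f r.head
  pos := r.pos.map f
  neg := r.neg.map f

/-- `P` is internal-variable-free: each variable in the body of a rule occurs in its head. -/
def InternalVariableFree {L : FirstOrder.Language.{0, 0}} (P : Set (Rule (Atom L ℕ))) : Prop :=
  ∀ r ∈ P, ∀ a ∈ r.pos ++ r.neg, a.vars ⊆ r.head.vars

/-- The Herbrand base: ground atoms. -/
abbrev HB (L : FirstOrder.Language.{0, 0}) : Type := Atom L Empty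

/-- The set `gr(P)` of ground instances of the rules of `P`. -/
def gr {L : FirstOrder.Language.{0, 0}} (P : Set (Rule (Atom L ℕ))) : Set (Rule (HB L)) :=
  {r | ∃ r₀ ∈ P, ∃ σ : ℕ → L.Term Empty, r = r₀.map (fun a => a.subst σ)}

/-- The three truth values `0 < u < 1`. -/
abbrev TV : Type := Fin 3

/-- The truth value *false*. -/
abbrev ff : TV := 0

/-- The truth value *undefined*. -/
abbrev uu : TV := 1

/-- The truth value *true*. -/
abbrev tt : TV := 2

/-- A rule of a positive program in which the additional atom `𝐮` (represented by `none`)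
may occur in the bodies. -/
structure PosRule (A : Type) where
  /-- head of the rule -/
  head : A
  /-- body of the rule; `none` stands for the atom `𝐮` -/
  body : List (Option A)

/-- The reduct of a set of ground rules with respect to a three-valued interpretation `I`:
rules with some `~b`, `I(b) = 1`, are deleted; literals `~b` with `I(b) = 0` are deleted;
literals `~b` with `I(b) = u` are replaced by `𝐮`. -/
def reduct {A : Type} (G : Set (Rule A)) (I : A → TV) : Set (PosRule A) :=
  {q | ∃ r ∈ G, (∀ b ∈ r.neg, I b ≠ tt) ∧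
    q = ⟨r.head, r.pos.map some ++ (r.neg.filter (fun b => I b = uu)).map (fun _ => none)⟩}

/-- Value of an atom of `A ∪ {𝐮}`; the atom `𝐮` always takes the value `u`. -/
def val {A : Type} (J : A → TV) (x : Option A) : TV := x.elim uu J

/-- `J` is a three-valued model of the positive program `Q`: for each rule, the minimum of the
values in the body (which is `1` if the body is empty) is at most the value of the head. -/
def IsModel {A : Type} (Q : Set (PosRule A)) (J : A → TV) : Prop :=
  ∀ q ∈ Q, (q.body.map (val J)).foldr min tt ≤ J q.head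

/-- `I` is a stable partial model of `P`: it is the least three-valued model of `P^I`. -/
def IsStablePartial {L : FirstOrder.Language.{0, 0}} (P : Set (Rule (Atom L ℕ))) (I : HB L → TV) : Prop :=
  IsLeast {J : HB L → TV | IsModel (reduct (gr P) I) J} I

/-- The set `I^u` of undefined atoms. -/
def undef {A : Type} (I : A → TV) : Set A := {a | I a = uu}

/-- `I` is an L-stable model of `P`: a stable partial model such that no stable partial model
has a strictly smaller set of undefined atoms. -/
def IsLStable {L : FirstOrder.Language.{0, 0}} (P : Set (Rule (Atom L ℕ))) (I : HB L → TV) : Prop :=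
  IsStablePartial P I ∧ ¬ ∃ J, IsStablePartial P J ∧ undef J ⊂ undef I

/-! ## General facts -/

lemma foldr_min_le {l : List TV} {x : TV} (h : x ∈ l) : l.foldr min tt ≤ x := by
  induction l with
  | nil => simp at h
  | cons y l ih =>
    rcases List.mem_cons.1 h with rfl | h
    · exact min_le_left _ _
    · exact (min_le_right _ _).trans (ih h)

lemma le_foldr_min {l : List TV} {v : TV} (h : ∀ x ∈ l, v ≤ x) : v ≤ l.foldr min tt := by
  induction l with
  | nil => exact Fin.le_last v
  | cons y l ih =>
    exact le_min (h y (by simp)) (ih fun x hx => h x (by simp [hx]))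

/-- Upper bounds in a least model, by an unfounded-set argument. -/
lemma le_of_unfounded {A : Type} {Q : Set (PosRule A)} {I : A → TV}
    (hI : IsLeast {J : A → TV | IsModel Q J} I) (S : Set A) (v : TV)
    (h : ∀ q ∈ Q, q.head ∈ S → ∃ x ∈ q.body, val I x ≤ v ∨ ∃ a ∈ S, x = some a) :
    ∀ a ∈ S, I a ≤ v := by
  classical
  intro a ha
  let J : A → TV := fun c => if c ∈ S then min (I c) v else I c
  have hJI : ∀ x, val J x ≤ val I x := by
    intro x
    cases x with
    | none => exact le_rfl
    | some c =>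
      simp only [val, Option.elim_some, J]
      split_ifs
      · exact min_le_left _ _
      · exact le_rfl
  have hJ : IsModel Q J := by
    intro q hq
    have h1 : (q.body.map (val J)).foldr min tt ≤ I q.head := by
      refine le_trans ?_ (hI.1 q hq)
      apply le_foldr_min
      intro x hx
      obtain ⟨y, hy, rfl⟩ := List.mem_map.1 hx
      exact (foldr_min_le (List.mem_map.2 ⟨y, hy, rfl⟩)).trans (hJI y)
    by_cases hS : q.head ∈ S
    · have h2 : (q.body.map (val J)).foldr min tt ≤ v := by
        obtain ⟨x, hx, hx'⟩ := h q hq hS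
        refine (foldr_min_le (List.mem_map.2 ⟨x, hx, rfl⟩)).trans ?_
        rcases hx' with hx' | ⟨c, hc, rfl⟩
        · exact (hJI x).trans hx'
        · simp only [val, Option.elim_some, J, if_pos hc]
          exact min_le_right _ _
      simp only [J, if_pos hS]
      exact le_min h1 h2
    · simp only [J, if_neg hS]
      exact h1
  have := hI.2 hJ a
  simp only [J, if_pos ha] at this
  exact this.trans (min_le_right _ _)

/-! ## The counterexample -/

/-- Function symbols: a constant `0` and a unary symbol `s`. -/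
inductive Fn : ℕ → Type
  | zero : Fn 0
  | succ : Fn 1

/-- Predicate symbols: all unary. -/
inductive Pr : ℕ → Type
  | go : Pr 1
  | stop : Pr 1
  | w : Pr 1
  | b : Pr 1

/-- The language of the counterexample. -/
def L₀ : FirstOrder.Language.{0, 0} := ⟨Fn, Pr⟩

/-- The term `0`. -/
def z {α : Type} : L₀.Term α := FirstOrder.Language.Term.func (l := 0) (Fn.zero : L₀.Functions 0) ![]

/-- The term `s(t)`. -/
def s {α : Type} (t : L₀.Term α) : L₀.Term α :=
  FirstOrder.Language.Term.func (l := 1) (Fn.succ : L₀.Functions 1) (fun _ => t)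

/-- The atom `p(t)`. -/
def at1 {α : Type} (p : Pr 1) (t : L₀.Term α) : Atom L₀ α :=
  ⟨1, p, fun _ => t⟩

/-- The variable `X`. -/
def X : L₀.Term ℕ := FirstOrder.Language.Term.var 0

/-- The program. -/
def P₀ : Set (Rule (Atom L₀ ℕ)) :=
  { ⟨at1 Pr.go z, [], []⟩,
    ⟨at1 Pr.go (s X), [at1 Pr.go X], [at1 Pr.stop X]⟩,
    ⟨at1 Pr.stop X, [at1 Pr.go X], [at1 Pr.go (s X)]⟩,
    ⟨at1 Pr.w X, [at1 Pr.stop X], []⟩,
    ⟨at1 Pr.w X, [at1 Pr.w (s X)], []⟩,
    ⟨at1 Pr.b X, [], [at1 Pr.b X, at1 Pr.w (s X)]⟩ }

/-- Numerals `s^n(0)`. -/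
def num : ℕ → L₀.Term Empty
  | 0 => z
  | n + 1 => s (num n)

/-- Every ground term is a numeral. -/
lemma exists_num (t : L₀.Term Empty) : ∃ n, t = num n := by
  induction t with
  | var a => exact a.elim
  | @func l f ts ih =>
    cases f with
    | zero => exact ⟨0, by simp only [num, z]; congr 1; exact Subsingleton.elim _ _⟩
    | succ =>
      obtain ⟨n, hn⟩ := ih 0
      refine ⟨n + 1, ?_⟩
      simp only [num, s]
      congr 1
      funext i
      rw [← hn]
      congr 1
      exact Subsingleton.elim _ _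

/-- The numeric value of a ground term. -/
def size : L₀.Term Empty → ℕ
  | .var a => a.elim
  | .func (l := 0) _ _ => 0
  | .func (l := 1) _ ts => size (ts 0) + 1
  | .func (l := _ + 2) _ _ => 0

lemma size_num (n : ℕ) : size (num n) = n := by
  induction n with
  | zero => rfl
  | succ n ih => simp [num, s, size, ih]

lemma num_injective : Function.Injective num := fun m n h => by
  rw [← size_num m, ← size_num n, h]

/-- The ground atom `p(s^n(0))`. -/
def ga (p : Pr 1) (n : ℕ) : HB L₀ := at1 p (num n)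

lemma ga_inj {p q : Pr 1} {m n : ℕ} : ga p m = ga q n ↔ p = q ∧ m = n := by
  constructor
  · intro h
    unfold ga at1 at h
    injection h with _ h1 h2
    exact ⟨h1, num_injective (congrFun h2 0)⟩
  · rintro ⟨rfl, rfl⟩; rfl

lemma exists_ga (a : HB L₀) : ∃ p n, a = ga p n := by
  obtain ⟨k, p, ts⟩ := a
  have hk : k = 1 := by cases p <;> rfl
  subst hk
  obtain ⟨n, hn⟩ := exists_num (ts 0)
  refine ⟨p, n, ?_⟩
  simp only [ga, at1]
  congr 1
  funext i
  rw [Subsingleton.elim i 0, hn]

/-! ### Ground rules -/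

lemma subst_s {α β : Type} (t : L₀.Term α) (σ : α → L₀.Term β) :
    (s t).subst σ = s (t.subst σ) := rfl

lemma subst_X {β : Type} (σ : ℕ → L₀.Term β) : X.subst σ = σ 0 := rfl

lemma subst_z {α β : Type} (σ : α → L₀.Term β) : (z : L₀.Term α).subst σ = z := by
  simp only [z, FirstOrder.Language.Term.subst]
  congr 1
  exact Subsingleton.elim _ _

lemma subst_at1 {α β : Type} (p : Pr 1) (t : L₀.Term α) (σ : α → L₀.Term β) :
    (at1 p t).subst σ = at1 p (t.subst σ) := rfl

/-- The ground instances of the program. -/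
lemma mem_gr {r : Rule (HB L₀)} : r ∈ gr P₀ ↔
    r = ⟨ga Pr.go 0, [], []⟩ ∨ ∃ n : ℕ,
      r = ⟨ga Pr.go (n + 1), [ga Pr.go n], [ga Pr.stop n]⟩ ∨
      r = ⟨ga Pr.stop n, [ga Pr.go n], [ga Pr.go (n + 1)]⟩ ∨
      r = ⟨ga Pr.w n, [ga Pr.stop n], []⟩ ∨
      r = ⟨ga Pr.w n, [ga Pr.w (n + 1)], []⟩ ∨
      r = ⟨ga Pr.b n, [], [ga Pr.b n, ga Pr.w (n + 1)]⟩ := by
  constructor
  · rintro ⟨r₀, hr₀, σ, rfl⟩
    obtain ⟨n, hn⟩ := exists_num (σ 0)
    simp only [P₀, Set.mem_insert_iff, Set.mem_singleton_iff] at hr₀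
    rcases hr₀ with rfl | rfl | rfl | rfl | rfl | rfl
    · left
      simp only [Rule.map, subst_at1, subst_z, List.map_nil]
      rfl
    all_goals
      right
      refine ⟨n, ?_⟩
      simp only [Rule.map, subst_at1, subst_s, subst_X, hn, List.map_nil, List.map_cons]
      simp only [ga, num]
      tauto
  · rintro (rfl | ⟨n, h⟩)
    · refine ⟨_, Or.inl rfl, fun _ => num 0, ?_⟩
      simp only [Rule.map, subst_at1, subst_z, List.map_nil]
      rfl
    · rcases h with rfl | rfl | rfl | rfl | rfl
      · exact ⟨_, Or.inr (Or.inl rfl), fun _ => num n, rfl⟩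
      · exact ⟨_, Or.inr (Or.inr (Or.inl rfl)), fun _ => num n, rfl⟩
      · exact ⟨_, Or.inr (Or.inr (Or.inr (Or.inl rfl))), fun _ => num n, rfl⟩
      · exact ⟨_, Or.inr (Or.inr (Or.inr (Or.inr (Or.inl rfl)))), fun _ => num n, rfl⟩
      · exact ⟨_, Or.inr (Or.inr (Or.inr (Or.inr (Or.inr rfl)))), fun _ => num n, rfl⟩

/-! ### Analysis of an arbitrary stable partial model -/

section Stable

variable {I : HB L₀ → TV} (hI : IsStablePartial P₀ I)
include hI

/-- If `stop(n)` is true then `go(m)` is false for `m > n`. -/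
lemma go_false {n : ℕ} (hn : I (ga Pr.stop n) = tt) {m : ℕ} (hm : n < m) :
    I (ga Pr.go m) ≤ ff := by
  refine le_of_unfounded hI {a | ∃ m, n < m ∧ a = ga Pr.go m} ff ?_ _ ⟨m, hm, rfl⟩
  rintro q ⟨r, hr, hneg, rfl⟩ ⟨m, hm, hq⟩
  rcases mem_gr.1 hr with rfl | ⟨k, rfl | rfl | rfl | rfl | rfl⟩ <;>
    simp only [ga_inj, reduceCtorEq, false_and, true_and] at hq
  · omega
  · subst hq
    refine ⟨some (ga Pr.go k), by simp, ?_⟩
    rcases Nat.lt_or_ge n k with h | h
    · exact Or.inr ⟨_, ⟨k, h, rfl⟩, rfl⟩
    · obtain rfl : k = n := by omega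
      exact absurd hn (hneg _ (by simp))

lemma stop_false {n : ℕ} (hn : I (ga Pr.stop n) = tt) {m : ℕ} (hm : n < m) :
    I (ga Pr.stop m) ≤ ff := by
  refine le_of_unfounded hI {ga Pr.stop m} ff ?_ _ rfl
  rintro q ⟨r, hr, hneg, rfl⟩ hq
  rcases mem_gr.1 hr with rfl | ⟨k, rfl | rfl | rfl | rfl | rfl⟩ <;>
    simp only [Set.mem_singleton_iff, ga_inj, reduceCtorEq, false_and, true_and] at hq
  subst hq
  exact ⟨some (ga Pr.go k), by simp, Or.inl (go_false hI hn hm)⟩

lemma w_false {n : ℕ} (hn : I (ga Pr.stop n) = tt) {m : ℕ} (hm : n < m) :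
    I (ga Pr.w m) ≤ ff := by
  refine le_of_unfounded hI {a | ∃ m, n < m ∧ a = ga Pr.w m} ff ?_ _ ⟨m, hm, rfl⟩
  rintro q ⟨r, hr, hneg, rfl⟩ ⟨m, hm, hq⟩
  rcases mem_gr.1 hr with rfl | ⟨k, rfl | rfl | rfl | rfl | rfl⟩ <;>
    simp only [ga_inj, reduceCtorEq, false_and, true_and] at hq
  · subst hq
    exact ⟨some (ga Pr.stop k), by simp, Or.inl (stop_false hI hn hm)⟩
  · subst hq
    exact ⟨some (ga Pr.w (k + 1)), by simp, Or.inr ⟨_, ⟨k + 1, by omega, rfl⟩, rfl⟩⟩

/-- If no `stop(n)` is true then no `w(n)` is true. -/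
lemma w_le_uu (h : ∀ n, I (ga Pr.stop n) ≠ tt) (m : ℕ) : I (ga Pr.w m) ≤ uu := by
  refine le_of_unfounded hI {a | ∃ m, a = ga Pr.w m} uu ?_ _ ⟨m, rfl⟩
  rintro q ⟨r, hr, hneg, rfl⟩ ⟨m, hq⟩
  rcases mem_gr.1 hr with rfl | ⟨k, rfl | rfl | rfl | rfl | rfl⟩ <;>
    simp only [ga_inj, reduceCtorEq, false_and, true_and] at hq
  · subst hq
    refine ⟨some (ga Pr.stop k), by simp, Or.inl ?_⟩
    have := h k
    simp only [val, Option.elim_some]
    revert this
    generalize I (ga Pr.stop k) = x
    revert x
    decide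
  · subst hq
    exact ⟨some (ga Pr.w (k + 1)), by simp, Or.inr ⟨_, ⟨k + 1, rfl⟩, rfl⟩⟩

/-- If `w(n+1)` is not true then `b(n)` is undefined. -/
lemma b_undef {n : ℕ} (hw : I (ga Pr.w (n + 1)) ≤ uu) : I (ga Pr.b n) = uu := by
  have h2 : I (ga Pr.b n) ≠ tt := by
    intro h
    have h3 : I (ga Pr.b n) ≤ ff := by
      refine le_of_unfounded hI {ga Pr.b n} ff ?_ _ rfl
      rintro q ⟨r, hr, hneg, rfl⟩ hq
      rcases mem_gr.1 hr with rfl | ⟨k, rfl | rfl | rfl | rfl | rfl⟩ <;>
        simp only [Set.mem_singleton_iff, ga_inj, reduceCtorEq, false_and, true_and] at hq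
      subst hq
      exact absurd h (hneg _ (by simp))
    rw [h] at h3
    exact absurd h3 (by decide)
  have h0 : I (ga Pr.b n) ≠ ff := by
    intro h
    have hm := hI.1 _ ⟨⟨ga Pr.b n, [], [ga Pr.b n, ga Pr.w (n + 1)]⟩,
      mem_gr.2 (Or.inr ⟨n, by tauto⟩), by
        intro b hb
        simp only [List.mem_cons, List.not_mem_nil, or_false] at hb
        rcases hb with rfl | rfl
        · exact h2
        · intro h'; rw [h'] at hw; exact absurd hw (by decide), rfl⟩
    simp only [h, List.map_nil, List.nil_append, List.map_map] at hm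
    have : uu ≤ (ff : TV) := by
      refine le_trans ?_ hm
      apply le_foldr_min
      intro x hx
      obtain ⟨y, -, rfl⟩ := List.mem_map.1 hx
      exact le_rfl
    exact absurd this (by decide)
  revert h0 h2
  generalize I (ga Pr.b n) = x
  revert x
  decide

/-- The undefined atoms of a stable partial model contain a tail of the `b(n)`. -/
lemma exists_tail : ∃ k, ∀ n, k ≤ n → ga Pr.b n ∈ undef I := by
  by_cases h : ∃ n, I (ga Pr.stop n) = tt
  · obtain ⟨n, hn⟩ := h
    refine ⟨n, fun m hm => b_undef hI ?_⟩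
    exact (w_false hI hn (by omega : n < m + 1)).trans (by decide)
  · push Not at h
    exact ⟨0, fun m _ => b_undef hI (w_le_uu hI h _)⟩

end Stable

/-! ### The stable partial models `I_k` -/

open Classical in
/-- The interpretation `I_k`. -/
noncomputable def Ik (k : ℕ) : HB L₀ → TV := fun a =>
  if (∃ n, n ≤ k ∧ a = ga Pr.go n) ∨ a = ga Pr.stop k ∨ (∃ n, n ≤ k ∧ a = ga Pr.w n) then tt
  else if ∃ n, k ≤ n ∧ a = ga Pr.b n then uu else ff

lemma Ik_go (k n : ℕ) : Ik k (ga Pr.go n) = if n ≤ k then tt else ff := by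
  simp [Ik, ga_inj]

lemma Ik_stop (k n : ℕ) : Ik k (ga Pr.stop n) = if n = k then tt else ff := by
  simp [Ik, ga_inj]

lemma Ik_w (k n : ℕ) : Ik k (ga Pr.w n) = if n ≤ k then tt else ff := by
  simp [Ik, ga_inj]

lemma Ik_b (k n : ℕ) : Ik k (ga Pr.b n) = if k ≤ n then uu else ff := by
  simp [Ik, ga_inj]

lemma undef_Ik (k : ℕ) : undef (Ik k) = {a | ∃ n, k ≤ n ∧ a = ga Pr.b n} := by
  ext a
  obtain ⟨p, n, rfl⟩ := exists_ga a
  have h1 : ¬ (tt = uu) := by decide
  have h2 : ¬ (ff = uu) := by decide
  cases p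
  · simp only [undef, Set.mem_ofPred_eq, ga_inj, Ik_go]; split_ifs <;> simp [h1, h2]
  · simp only [undef, Set.mem_ofPred_eq, ga_inj, Ik_stop]; split_ifs <;> simp [h1, h2]
  · simp only [undef, Set.mem_ofPred_eq, ga_inj, Ik_w]; split_ifs <;> simp [h1, h2]
  · simp only [undef, Set.mem_ofPred_eq, ga_inj, Ik_b]; split_ifs <;> simp [*]

/-- `I_k` is a model of its reduct. -/
lemma isModel_Ik (k : ℕ) : IsModel (reduct (gr P₀) (Ik k)) (Ik k) := by
  have h1 : ¬ (uu = tt) := by decide
  have h2 : ¬ (ff = tt) := by decide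
  have h3 : ¬ (ff = uu) := by decide
  have h4 : ∀ x : TV, x ≤ tt := by decide
  have h5 : ∀ x : TV, ff ≤ x := by decide
  rintro q ⟨r, hr, hneg, rfl⟩
  rcases mem_gr.1 hr with rfl | ⟨n, rfl | rfl | rfl | rfl | rfl⟩
  · simp [Ik_go]
  · -- `go(n+1) <- go(n), ~stop(n)`
    have hs := hneg _ (List.mem_singleton.2 rfl)
    rw [Ik_stop] at hs
    by_cases hk : n + 1 ≤ k
    · simp only [Ik_go, if_pos hk]
      exact h4 _
    · have hgo : Ik k (ga Pr.go n) = ff := by
        rw [Ik_go, if_neg]
        intro h
        have : n = k := by omega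
        rw [if_pos this] at hs
        exact hs rfl
      refine le_trans (foldr_min_le (x := ff) ?_) (h5 _)
      simp [val, hgo]
  · -- `stop(n) <- go(n), ~go(n+1)`
    have hs := hneg _ (List.mem_singleton.2 rfl)
    rw [Ik_go] at hs
    have hn : ¬ (n + 1 ≤ k) := fun h => hs (if_pos h)
    by_cases hk : n = k
    · simp only [Ik_stop, if_pos hk]
      exact h4 _
    · have hgo : Ik k (ga Pr.go n) = ff := by
        rw [Ik_go, if_neg]
        omega
      refine le_trans (foldr_min_le (x := ff) ?_) (h5 _)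
      simp [val, hgo]
  · -- `w(n) <- stop(n)`
    by_cases hk : n = k
    · simp only [Ik_w, if_pos hk.le]
      exact h4 _
    · refine le_trans (foldr_min_le (x := ff) ?_) (h5 _)
      simp [val, Ik_stop, hk]
  · -- `w(n) <- w(n+1)`
    by_cases hk : n ≤ k
    · simp only [Ik_w, if_pos hk]
      exact h4 _
    · refine le_trans (foldr_min_le (x := ff) ?_) (h5 _)
      have : ¬ (n + 1 ≤ k) := by omega
      simp [val, Ik_w, this]
  · -- `b(n) <- ~b(n), ~w(n+1)`
    have hs := hneg (ga Pr.w (n + 1)) (by simp)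
    rw [Ik_w] at hs
    have hn : ¬ (n + 1 ≤ k) := fun h => hs (if_pos h)
    have hk : k ≤ n := by omega
    simp only [Ik_b, if_pos hk]
    refine foldr_min_le (x := uu) ?_
    simp only [List.map_nil, List.nil_append, List.map_map, List.mem_map, List.mem_filter,
      List.mem_cons, List.not_mem_nil, or_false]
    exact ⟨ga Pr.b n, ⟨Or.inl rfl, by simp [Ik_b, hk]⟩, rfl⟩

/-- `I_k` lies below each model of its reduct. -/
lemma Ik_le (k : ℕ) {J : HB L₀ → TV} (hJ : IsModel (reduct (gr P₀) (Ik k)) J) : Ik k ≤ J := by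
  have h1 : ¬ (uu = tt) := by decide
  have h2 : ¬ (ff = tt) := by decide
  have h3 : ¬ (ff = uu) := by decide
  have h5 : ∀ x : TV, ff ≤ x := by decide
  have hgo : ∀ n, n ≤ k → tt ≤ J (ga Pr.go n) := by
    intro n
    induction n with
    | zero =>
      intro _
      simpa using hJ _ ⟨⟨ga Pr.go 0, [], []⟩, mem_gr.2 (Or.inl rfl), by simp, rfl⟩
    | succ n ih =>
      intro hn
      have hstop : Ik k (ga Pr.stop n) = ff := by rw [Ik_stop, if_neg]; omega
      have := hJ _ ⟨⟨ga Pr.go (n + 1), [ga Pr.go n], [ga Pr.stop n]⟩,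
        mem_gr.2 (Or.inr ⟨n, by tauto⟩), by
          intro b hb
          rw [List.mem_singleton.1 hb, hstop]
          exact h2, rfl⟩
      refine le_trans (le_foldr_min ?_) this
      intro x hx
      simp only [List.map_cons, List.map_nil, List.filter_cons, hstop, h3, decide_false,
        Bool.false_eq_true, if_false, List.filter_nil, List.append_nil, List.mem_singleton] at hx
      rw [hx]
      exact ih (by omega)
  have hst : tt ≤ J (ga Pr.stop k) := by
    have hg : Ik k (ga Pr.go (k + 1)) = ff := by rw [Ik_go, if_neg]; omega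
    have := hJ _ ⟨⟨ga Pr.stop k, [ga Pr.go k], [ga Pr.go (k + 1)]⟩,
      mem_gr.2 (Or.inr ⟨k, by tauto⟩), by
        intro b hb
        rw [List.mem_singleton.1 hb, hg]
        exact h2, rfl⟩
    refine le_trans (le_foldr_min ?_) this
    intro x hx
    simp only [List.map_cons, List.map_nil, List.filter_cons, hg, h3, decide_false,
      Bool.false_eq_true, if_false, List.filter_nil, List.append_nil, List.mem_singleton] at hx
    rw [hx]
    exact hgo k le_rfl
  have hw : ∀ d n, n + d = k → tt ≤ J (ga Pr.w n) := by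
    intro d
    induction d with
    | zero =>
      intro n hn
      have := hJ _ ⟨⟨ga Pr.w n, [ga Pr.stop n], []⟩,
        mem_gr.2 (Or.inr ⟨n, by tauto⟩), by simp, rfl⟩
      refine le_trans (le_foldr_min ?_) this
      intro x hx
      simp only [List.map_cons, List.map_nil, List.filter_nil, List.append_nil,
        List.mem_singleton] at hx
      have hnk : n = k := by omega
      rw [hx, hnk]
      exact hst
    | succ d ih =>
      intro n hn
      have := hJ _ ⟨⟨ga Pr.w n, [ga Pr.w (n + 1)], []⟩,
        mem_gr.2 (Or.inr ⟨n, by tauto⟩), by simp, rfl⟩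
      refine le_trans (le_foldr_min ?_) this
      intro x hx
      simp only [List.map_cons, List.map_nil, List.filter_nil, List.append_nil,
        List.mem_singleton] at hx
      rw [hx]
      exact ih (n + 1) (by omega)
  have hb : ∀ n, k ≤ n → uu ≤ J (ga Pr.b n) := by
    intro n hn
    have hwn : Ik k (ga Pr.w (n + 1)) = ff := by rw [Ik_w, if_neg]; omega
    have hbn : Ik k (ga Pr.b n) = uu := by rw [Ik_b, if_pos hn]
    have := hJ _ ⟨⟨ga Pr.b n, [], [ga Pr.b n, ga Pr.w (n + 1)]⟩,
      mem_gr.2 (Or.inr ⟨n, by tauto⟩), by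
        intro b hb
        simp only [List.mem_cons, List.not_mem_nil, or_false] at hb
        rcases hb with rfl | rfl
        · rw [hbn]; exact h1
        · rw [hwn]; exact h2, rfl⟩
    refine le_trans (le_foldr_min ?_) this
    intro x hx
    simp only [List.map_nil, List.nil_append, List.map_map] at hx
    obtain ⟨y, -, rfl⟩ := List.mem_map.1 hx
    exact le_rfl
  intro a
  obtain ⟨p, n, rfl⟩ := exists_ga a
  cases p
  · rw [Ik_go]; split_ifs with h
    · exact hgo n h
    · exact h5 _
  · rw [Ik_stop]; split_ifs with h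
    · rw [h]; exact hst
    · exact h5 _
  · rw [Ik_w]; split_ifs with h
    · exact hw (k - n) n (by omega)
    · exact h5 _
  · rw [Ik_b]; split_ifs with h
    · exact hb n h
    · exact h5 _

/-- Each `I_k` is a stable partial model. -/
lemma isStable_Ik (k : ℕ) : IsStablePartial P₀ (Ik k) :=
  ⟨isModel_Ik k, fun _ hJ => Ik_le k hJ⟩

lemma finite_Fn : Finite (Σ n, L₀.Functions n) := by
  refine Finite.of_surjective
    (fun i : Bool => if i then (⟨0, Fn.zero⟩ : Σ n, L₀.Functions n) else ⟨1, Fn.succ⟩) ?_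
  rintro ⟨n, f⟩
  cases f with
  | zero => exact ⟨true, rfl⟩
  | succ => exact ⟨false, rfl⟩

lemma finite_Pr : Finite (Σ n, L₀.Relations n) := by
  refine Finite.of_surjective
    (fun i : Fin 4 => (⟨1, match i with
      | 0 => Pr.go | 1 => Pr.stop | 2 => Pr.w | 3 => Pr.b⟩ : Σ n, L₀.Relations n)) ?_
  rintro ⟨n, f⟩
  cases f with
  | go => exact ⟨0, rfl⟩
  | stop => exact ⟨1, rfl⟩
  | w => exact ⟨2, rfl⟩
  | b => exact ⟨3, rfl⟩

lemma vars_at1 {α : Type} [DecidableEq α] (p : Pr 1) (t : L₀.Term α) :
    (at1 p t).vars = t.varFinset := by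
  ext x
  constructor
  · rintro ⟨_, hx⟩
    exact hx
  · intro hx
    exact ⟨(0 : Fin 1), hx⟩

lemma varFinset_s (t : L₀.Term ℕ) : (s t).varFinset = t.varFinset := by
  simp [s, FirstOrder.Language.Term.varFinset]

lemma ivf : InternalVariableFree P₀ := by
  intro r hr a ha
  simp only [P₀, Set.mem_insert_iff, Set.mem_singleton_iff] at hr
  rcases hr with rfl | rfl | rfl | rfl | rfl | rfl <;>
    simp only [List.nil_append, List.mem_cons, List.not_mem_nil, or_false,
      List.cons_append, List.append_nil] at ha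
  · rcases ha with rfl | rfl <;> simp only [vars_at1, varFinset_s] <;> exact subset_rfl
  · rcases ha with rfl | rfl <;> simp only [vars_at1, varFinset_s] <;> exact subset_rfl
  · rcases ha with rfl; simp only [vars_at1]; exact subset_rfl
  · rcases ha with rfl; simp only [vars_at1, varFinset_s]; exact subset_rfl
  · rcases ha with rfl | rfl <;> simp only [vars_at1, varFinset_s] <;> exact subset_rfl

/-- Each stable partial model `I` of `P₀` admits a stable partial model `J` with
`J^u ⊊ I^u`. -/
lemma key (I : HB L₀ → TV) (hI : IsStablePartial P₀ I) :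
    ∃ J, IsStablePartial P₀ J ∧ undef J ⊂ undef I := by
  obtain ⟨k, hk⟩ := exists_tail hI
  refine ⟨Ik (k + 1), isStable_Ik _, ?_⟩
  rw [undef_Ik, Set.ssubset_iff_of_subset]
  · refine ⟨ga Pr.b k, hk k le_rfl, ?_⟩
    rintro ⟨n, hn, h⟩
    rw [ga_inj] at h
    omega
  · rintro a ⟨n, hn, rfl⟩
    exact hk n (by omega)

/-- **Main result.** There are a first-order language `L` with finitely many function and
predicate symbols, among them at least one constant, and a finite internal-variable-free normal
logic program `P` over `L` which has no L-stable model. -/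
theorem result : ∃ (L : FirstOrder.Language.{0, 0}) (P : Set (Rule (Atom L ℕ))),
    Finite (Σ n, L.Functions n) ∧ Finite (Σ n, L.Relations n) ∧ Nonempty (L.Functions 0) ∧
    P.Finite ∧ InternalVariableFree P ∧ ¬ ∃ I : HB L → TV, IsLStable P I := by
  refine ⟨L₀, P₀, finite_Fn, finite_Pr, ⟨Fn.zero⟩, ?_, ivf, ?_⟩
  · unfold P₀
    exact Set.toFinite _
  · rintro ⟨I, hI, h⟩
    exact h (key I hI)

end Pool.Agent.Results.MP_718be6_lc.NoLStableModel
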